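import Pool.Agent.COSB.StmtsA

set_option autoImplicit false

/-!
# Squad COSB, row ODC: the calculus of odd numbers of words
-/

namespace Pool.Agent.COSB.H27

open Pool.Agent.PAR Pool.Agent.COS Pool.Agent.COSB

/-- (7): double counting of parities -/
theorem prodP (α β : Type) [Finite α] [Finite β] (P : α → β → Prop) :
    Odd {t : α × β | P t.1 t.2}.ncard ↔ Odd {a : α | Odd {b : β | P a b}.ncard}.ncard := by
  classical
  have : Fintype α := Fintype.ofFinite α
  have : Fintype β := Fintype.ofFinite β
  have h1 : {t : α × β | P t.1 t.2}.ncard = ∑ a : α, {b : β | P a b}.ncard := by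
    have e : {t : α × β | P t.1 t.2} ≃ Σ a : α, {b : β | P a b} :=
      { toFun := fun t => ⟨t.1.1, t.1.2, t.2⟩
        invFun := fun s => ⟨(s.1, s.2.1), s.2.2⟩
        left_inv := fun t => rfl
        right_inv := fun s => rfl }
    calc {t : α × β | P t.1 t.2}.ncard = Nat.card {t : α × β | P t.1 t.2} :=
          (Nat.card_coe_set_eq _).symm
      _ = Nat.card (Σ a : α, {b : β | P a b}) := Nat.card_congr e
      _ = ∑ a : α, Nat.card {b : β | P a b} := Nat.card_sigma
      _ = ∑ a : α, {b : β | P a b}.ncard :=
          Finset.sum_congr rfl fun a _ => Nat.card_coe_set_eq _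
  rw [h1, Finset.odd_sum_iff_odd_card_odd]
  have h2 : {a : α | Odd {b : β | P a b}.ncard}.ncard =
      (Finset.univ.filter fun a : α => Odd {b : β | P a b}.ncard).card := by
    rw [← Set.ncard_coe_finset]
    congr 1
    ext a
    simp
  rw [h2]

/-- (1) -/
theorem od_congr (l : ℕ) (P Q : Word → Prop) (h : ∀ c : Word, c.length = l → (P c ↔ Q c)) :
    Od l P ↔ Od l Q := by
  unfold Od
  have : {c : Word | c.length = l ∧ P c} = {c : Word | c.length = l ∧ Q c} := by
    ext c
    simp only [Set.mem_ofPred_eq]
    exact and_congr_right (h c)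
  rw [this]

/-- (5) -/
theorem od_inj (l : ℕ) (P : Word → Prop) (α : Type) (e : α → Word) (he : Function.Injective e)
    (hl : ∀ t, (e t).length = l) (hs : ∀ c : Word, c.length = l → ∃ t, e t = c) :
    Od l P ↔ Odd {t : α | P (e t)}.ncard := by
  unfold Od
  have : {c : Word | c.length = l ∧ P c} = e '' {t : α | P (e t)} := by
    ext c
    simp only [Set.mem_ofPred_eq, Set.mem_image]
    constructor
    · rintro ⟨h1, h2⟩
      obtain ⟨t, rfl⟩ := hs c h1
      exact ⟨t, h2, rfl⟩
    · rintro ⟨t, ht, rfl⟩
      exact ⟨hl t, ht⟩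
  rw [this, Set.ncard_image_of_injective _ he]

theorem finW (m : ℕ) : Finite {a : Word // a.length = m} :=
  (List.finite_length_eq Bool m).to_subtype

theorem od_sub (l : ℕ) (P : Word → Prop) :
    Od l P ↔ Odd {t : {a : Word // a.length = l} | P t.1}.ncard :=
  od_inj l P {a : Word // a.length = l} (fun t => t.1) Subtype.val_injective (fun t => t.2)
    (fun c hc => ⟨⟨c, hc⟩, rfl⟩)

/-- (2) -/
theorem od_add (m l : ℕ) (P : Word → Prop) :
    Od (m + l) P ↔ Od m (fun a => Od l (fun b => P (a ++ b))) := by
  have := finW m
  have := finW l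
  rw [od_inj (m + l) P ({a : Word // a.length = m} × {b : Word // b.length = l})
    (fun t => t.1.1 ++ t.2.1)]
  · rw [prodP {a : Word // a.length = m} {b : Word // b.length = l} (fun a b => P (a.1 ++ b.1))]
    rw [od_sub m]
    have : {a : {a : Word // a.length = m} |
        Odd {b : {b : Word // b.length = l} | P (a.1 ++ b.1)}.ncard} =
        {a : {a : Word // a.length = m} | Od l (fun b => P (a.1 ++ b))} := by
      ext a
      simp only [Set.mem_ofPred_eq]
      exact (od_sub l (fun b => P (a.1 ++ b))).symm
    rw [this]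
  · rintro ⟨⟨a, ha⟩, ⟨b, hb⟩⟩ ⟨⟨a', ha'⟩, ⟨b', hb'⟩⟩ h
    have := List.append_inj h (by show a.length = a'.length; rw [ha, ha'])
    obtain ⟨h1, h2⟩ := this
    simp only at h1 h2
    subst h1
    subst h2
    rfl
  · rintro ⟨⟨a, ha⟩, ⟨b, hb⟩⟩
    show (a ++ b).length = m + l
    rw [List.length_append, ha, hb]
  · intro c hc
    refine ⟨⟨⟨c.take m, ?_⟩, ⟨c.drop m, ?_⟩⟩, ?_⟩
    · rw [List.length_take]; omega
    · rw [List.length_drop]; omega
    · exact List.take_append_drop m c

/-- (4) -/
theorem od_one (w : Word) : Od w.length (fun c => c = w) := by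
  unfold Od
  have : {c : Word | c.length = w.length ∧ c = w} = {w} := by
    ext c
    simp only [Set.mem_ofPred_eq, Set.mem_singleton_iff]
    constructor
    · exact fun h => h.2
    · rintro rfl
      exact ⟨rfl, rfl⟩
  rw [this, Set.ncard_singleton]
  exact odd_one

/-- (6) -/
theorem od_and (l : ℕ) (p : Prop) (P : Word → Prop) : Od l (fun c => p ∧ P c) ↔ p ∧ Od l P := by
  by_cases hp : p
  · rw [od_congr l (fun c => p ∧ P c) P (fun c _ => by simp [hp])]
    simp [hp]
  · unfold Od
    have : {c : Word | c.length = l ∧ (p ∧ P c)} = ∅ := by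
      ext c
      simp [hp]
    rw [this, Set.ncard_empty]
    simp [hp]

/-- (3) -/
theorem od_mul (N l : ℕ) (P : ℕ → Word → Prop) :
    Od (N * l) (fun c => ∀ i < N, P i (blW l c i)) ↔ ∀ i < N, Od l (P i) := by
  induction N with
  | zero =>
    simp only [Nat.not_lt_zero, IsEmpty.forall_iff, implies_true, iff_true, Nat.zero_mul]
    have := od_one []
    rw [od_congr 0 (fun _ => True) (fun c => c = []) (fun c hc => by
      simp [List.length_eq_zero_iff.mp hc])]
    exact this
  | succ N ih =>
    rw [Nat.succ_mul, od_add]
    have hb : ∀ a : Word, a.length = N * l →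
        (Od l (fun b => ∀ i < N + 1, P i (blW l (a ++ b) i)) ↔
          ((∀ i < N, P i (blW l a i)) ∧ Od l (P N))) := by
      intro a ha
      rw [← od_and]
      apply od_congr
      intro b hb
      have hN : blW l (a ++ b) N = b := by
        unfold blW
        rw [← ha, List.drop_left, ← hb, List.take_length]
      have hi : ∀ i < N, blW l (a ++ b) i = blW l a i := by
        intro i hi
        have hle : (i + 1) * l ≤ N * l := Nat.mul_le_mul_right l hi
        unfold blW
        rw [List.drop_append_of_le_length (by rw [ha]; nlinarith),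
          List.take_append_of_le_length (by
            rw [List.length_drop, ha]
            have : (i + 1) * l = i * l + l := Nat.succ_mul i l
            omega)]
      constructor
      · intro h
        refine ⟨fun i hiN => ?_, ?_⟩
        · rw [← hi i hiN]
          exact h i (by omega)
        · have := h N (by omega)
          rwa [hN] at this
      · rintro ⟨h1, h2⟩ i hiN
        rcases Nat.lt_or_ge i N with h | h
        · rw [hi i h]
          exact h1 i h
        · have : i = N := by omega
          subst this
          rw [hN]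
          exact h2
    rw [od_congr (N * l) _ (fun a => Od l (P N) ∧ ∀ i < N, P i (blW l a i))
      (fun a ha => (hb a ha).trans and_comm), od_and, ih]
    constructor
    · rintro ⟨h1, h2⟩ i hi
      rcases Nat.lt_or_ge i N with h | h
      · exact h2 i h
      · have : i = N := by omega
        subst this
        exact h1
    · intro h
      exact ⟨h N (by omega), fun i hi => h i (by omega)⟩

/-- **ODC** -/
theorem odc : OdcStmt :=
  ⟨od_congr, od_add, od_mul, od_one, od_inj, od_and, fun α β _ _ P => prodP α β P⟩

end Pool.Agent.COSB.H27
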