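import Pool.Agent.COSB.StmtsL

set_option autoImplicit false

/-!
# Squad COSB, row WRL: reading of an instance
-/

namespace Pool.Agent.COSB.H27W

open Pool.Agent.PAR Pool.Agent.COS Pool.Agent.COSB

theorem lead_rep (n : ℕ) (u : Word) : LAT.lead (List.replicate n true ++ false :: u) = n := by
  unfold LAT.lead
  rw [List.takeWhile_append_of_pos (fun a ha => by
    rw [List.mem_replicate] at ha; simp [ha.2])]
  simp

theorem drop_rep (n : ℕ) (u : Word) :
    (List.replicate n true ++ false :: u).drop (n + 1) = u := by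
  rw [List.drop_append]
  simp

theorem idx_le (n w : ℕ) (i j : Fin n) :
    (i.1 * n + j.1) * (w + 1) + (w + 1) ≤ n * n * (w + 1) := by
  have h1 : i.1 * n + j.1 + 1 ≤ n * n := by
    have h2 : (i.1 + 1) * n ≤ n * n := Nat.mul_le_mul_right n i.2
    have h3 : (i.1 + 1) * n = i.1 * n + n := Nat.succ_mul _ _
    have := j.2
    omega
  calc (i.1 * n + j.1) * (w + 1) + (w + 1) = (i.1 * n + j.1 + 1) * (w + 1) := by ring
    _ ≤ n * n * (w + 1) := Nat.mul_le_mul_right _ h1

theorem nz_append (n w : ℕ) (u v : Word) (i j : Fin n) (hu : u.length = n * n * (w + 1)) :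
    nz n w (u ++ v) i j = nz n w u i j := by
  have h := idx_le n w i j
  unfold nz LAT.num
  rw [List.drop_append_of_le_length (by rw [hu]; omega),
    List.take_append_of_le_length (by rw [List.length_drop, hu]; omega)]

/-- **WRL** -/
theorem wrl (h1 : EnzStmt) : WrlStmt := by
  intro n w Q Q' hQ hQ'
  obtain ⟨hE1, hE2, -⟩ := h1 n w
  have hqn : qn (encL n w Q Q') = n := by
    unfold qn encL
    rw [lead_rep]
  have hq1 : q1 (encL n w Q Q') =
      List.replicate w true ++ false :: (encZ w Q ++ encZ w Q') := by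
    unfold q1
    rw [hqn]
    unfold encL
    rw [drop_rep]
  have hqw : qw (encL n w Q Q') = w := by
    unfold qw
    rw [hq1, lead_rep]
  have hq2 : q2 (encL n w Q Q') = encZ w Q ++ encZ w Q' := by
    unfold q2
    rw [hqw, hq1, drop_rep]
  refine ⟨hqn, hqw, ?_, ?_⟩
  · intro i j
    unfold qQ
    rw [hqn, hqw, hq2, nz_append n w _ _ i j (hE1 Q).2]
    have := abs_lt.mp (hQ i j)
    exact hE2 Q i j this.1.le this.2
  · intro i j
    unfold qR
    rw [hqn, hqw, hq2, ← (hE1 Q).2, List.drop_left]
    have := abs_lt.mp (hQ' i j)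
    exact hE2 Q' i j this.1.le this.2

end Pool.Agent.COSB.H27W
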